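import Pool.Agent.L5helper31.TG.Defs

/-!
# The barycentre of the polytope of the product of a line and a projective space
-/

set_option autoImplicit false

open MeasureTheory Finset

namespace Pool.Agent.L5helper31.TG

/-- The inequalities of the example. -/
theorem mem_ex (n : ℕ) (x : Fin (n + 1) → ℝ) : x ∈ polytope (exL n) ↔
    -1 ≤ x 0 ∧ x 0 ≤ 1 ∧ ∑ i : Fin n, x i.succ ≤ 1 ∧ ∀ i : Fin n, -1 ≤ x i.succ := by
  have h1 : dot (Pi.single 0 1 : Fin (n + 1) → ℤ) x = x 0 := by
    unfold dot
    rw [Finset.sum_eq_single 0]
    · simp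
    · intro b _ hb
      simp [Pi.single_eq_of_ne hb]
    · intro h; exact absurd (mem_univ _) h
  have h2 : dot (-Pi.single 0 1 : Fin (n + 1) → ℤ) x = -x 0 := by
    rw [← h1]
    unfold dot
    rw [← Finset.sum_neg_distrib]
    refine Finset.sum_congr rfl fun i _ => ?_
    simp
  have h3 : ∀ i : Fin n, dot (Pi.single i.succ 1 : Fin (n + 1) → ℤ) x = x i.succ := by
    intro i
    unfold dot
    rw [Finset.sum_eq_single i.succ]
    · simp
    · intro b _ hb
      simp [Pi.single_eq_of_ne hb]
    · intro h; exact absurd (mem_univ _) h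
  have h4 : dot (-∑ i : Fin n, Pi.single i.succ 1 : Fin (n + 1) → ℤ) x =
      -∑ i : Fin n, x i.succ := by
    have h5 : ∀ k : Fin (n + 1), (((-∑ i : Fin n, Pi.single i.succ 1 : Fin (n + 1) → ℤ) k : ℤ) : ℝ) =
        -∑ i : Fin n, (((Pi.single i.succ 1 : Fin (n + 1) → ℤ) k : ℤ) : ℝ) := by
      intro k
      rw [Pi.neg_apply, Finset.sum_apply, Int.cast_neg, Int.cast_sum]
    have h6 : dot (-∑ i : Fin n, Pi.single i.succ 1 : Fin (n + 1) → ℤ) x =
        -∑ i : Fin n, dot (Pi.single i.succ 1 : Fin (n + 1) → ℤ) x := by
      unfold dot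
      simp only [h5, neg_mul, Finset.sum_mul, Finset.sum_neg_distrib]
      rw [Finset.sum_comm]
    rw [h6]
    simp only [h3]
  constructor
  · intro h
    refine ⟨?_, ?_, ?_, ?_⟩
    · have := h (Pi.single 0 1) (by simp [exL])
      rwa [h1] at this
    · have := h (-Pi.single 0 1) (by simp [exL])
      rw [h2] at this
      linarith
    · have := h (-∑ i : Fin n, Pi.single i.succ 1) (by simp [exL])
      rw [h4] at this
      linarith
    · intro i
      have := h (Pi.single i.succ 1) (by
        refine Finset.mem_union_right _ ?_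
        exact Finset.mem_image_of_mem _ (mem_univ i))
      rwa [h3] at this
  · rintro ⟨a, b, c, e⟩ l hl
    rw [exL, Finset.mem_union] at hl
    rcases hl with hl | hl
    · simp only [Finset.mem_insert, Finset.mem_singleton] at hl
      rcases hl with rfl | rfl | rfl
      · rw [h1]; exact a
      · rw [h2]; linarith
      · rw [h4]; linarith
    · obtain ⟨i, _, rfl⟩ := Finset.mem_image.mp hl
      rw [h3]; exact e i

/-- An upper bound for the coordinates. -/
theorem ex_upper (n : ℕ) (x : Fin (n + 1) → ℝ) (hx : x ∈ polytope (exL n)) (i : Fin (n + 1)) :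
    |x i| ≤ n + 1 := by
  obtain ⟨a, b, c, e⟩ := (mem_ex n x).mp hx
  have hn : (0 : ℝ) ≤ n := Nat.cast_nonneg n
  refine Fin.cases ?_ (fun j => ?_) i
  · rw [abs_le]; constructor <;> linarith
  · rw [abs_le]
    refine ⟨by linarith [e j], ?_⟩
    have h1 : ∑ k : Fin n, (x k.succ + 1) ≤ 1 + n := by
      rw [Finset.sum_add_distrib]
      simp only [Finset.sum_const, card_univ, Fintype.card_fin, nsmul_eq_mul, mul_one]
      linarith
    have h2 : x j.succ + 1 ≤ ∑ k : Fin n, (x k.succ + 1) :=
      Finset.single_le_sum (f := fun k : Fin n => x k.succ + 1)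
        (fun k _ => by linarith [e k]) (mem_univ j)
    linarith

theorem ex_compact (n : ℕ) : IsCompact (polytope (exL n)) := by
  refine Metric.isCompact_of_isClosed_isBounded ?_ ?_
  · have : polytope (exL n) = ⋂ l ∈ exL n, {x | -1 ≤ dot l x} := by
      ext x; simp [polytope]
    rw [this]
    refine isClosed_biInter fun l _ => ?_
    refine isClosed_le continuous_const ?_
    unfold dot
    fun_prop
  · rw [isBounded_iff_forall_norm_le]
    refine ⟨n + 1, fun x hx => ?_⟩
    rw [pi_norm_le_iff_of_nonneg (by positivity)]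
    intro i
    exact ex_upper n x hx i

theorem ex_integrable (n : ℕ) (i : Fin (n + 1)) :
    IntegrableOn (fun x : Fin (n + 1) → ℝ => x i) (polytope (exL n)) :=
  (continuous_apply i).continuousOn.integrableOn_compact (ex_compact n)

/-- A linear involution preserves the integrals over an invariant set. -/
theorem int_involution {m : ℕ} (f : (Fin m → ℝ) →ₗ[ℝ] (Fin m → ℝ)) (hf : ∀ x, f (f x) = x)
    (P : Set (Fin m → ℝ)) (hP : ∀ x, x ∈ P → f x ∈ P) (g : (Fin m → ℝ) → ℝ) :
    ∫ x in P, g (f x) = ∫ x in P, g x := by
  have hff : f * f = 1 := by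
    ext1 x
    ext1
    simp [hf]
  have hdet : LinearMap.det f * LinearMap.det f = 1 := by
    rw [← LinearMap.det.map_mul, hff, LinearMap.det.map_one]
  have hne : LinearMap.det f ≠ 0 := by
    intro h
    rw [h, mul_zero] at hdet
    exact zero_ne_one hdet
  have habs : |LinearMap.det f| = 1 := by
    have h1 : |LinearMap.det f| * |LinearMap.det f| = 1 := by
      rw [← abs_mul, hdet, abs_one]
    nlinarith [abs_nonneg (LinearMap.det f)]
  have hcont : Continuous f := LinearMap.continuous_of_finiteDimensional f
  have hmp : MeasurePreserving f (volume : Measure (Fin m → ℝ)) volume := by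
    refine ⟨hcont.measurable, ?_⟩
    rw [Real.map_linearMap_volume_pi_eq_smul_volume_pi hne]
    rw [abs_inv, habs]
    simp
  have hemb : MeasurableEmbedding f :=
    (MeasurableEquiv.ofInvolutive f hf hcont.measurable).measurableEmbedding
  have hpre : f ⁻¹' P = P := by
    ext x
    constructor
    · intro h
      have := hP _ h
      rwa [hf] at this
    · exact hP x
  have := hmp.setIntegral_preimage_emb hemb g P
  rwa [hpre] at this

/-- TG8. The example: barycentre. -/
theorem ex_bary (n : ℕ) (hn : 1 ≤ n) (i : Fin (n + 1)) : ∫ x in polytope (exL n), x i = 0 := by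
  refine Fin.cases ?_ (fun j => ?_) i
  · -- the change of sign of the first coordinate
    let f : (Fin (n + 1) → ℝ) →ₗ[ℝ] (Fin (n + 1) → ℝ) :=
      LinearMap.pi (fun k => if k = 0 then -LinearMap.proj 0 else LinearMap.proj k)
    have hf0 : ∀ x, f x 0 = -x 0 := fun x => by simp [f]
    have hfs : ∀ x (k : Fin n), f x k.succ = x k.succ := fun x k => by
      simp [f, Fin.succ_ne_zero]
    have h1 := int_involution f (fun x => by
      ext k
      refine Fin.cases ?_ (fun k => ?_) k
      · rw [hf0, hf0, neg_neg]
      · rw [hfs, hfs]) (polytope (exL n)) (fun x hx => by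
        obtain ⟨a, b, c, e⟩ := (mem_ex n x).mp hx
        rw [mem_ex, hf0]
        refine ⟨by linarith, by linarith, ?_, fun k => ?_⟩
        · simpa only [hfs] using c
        · rw [hfs]; exact e k) (fun x => x 0)
    simp only [hf0] at h1
    rw [integral_neg] at h1
    linarith
  · have key : ∀ j : Fin n, ∫ x in polytope (exL n), x j.succ =
        -∑ k : Fin n, ∫ x in polytope (exL n), x k.succ := by
      intro j
      let f : (Fin (n + 1) → ℝ) →ₗ[ℝ] (Fin (n + 1) → ℝ) :=
        LinearMap.pi (fun k => if k = j.succ then -∑ l : Fin n, LinearMap.proj l.succ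
          else LinearMap.proj k)
      have hfj : ∀ x, f x j.succ = -∑ l : Fin n, x l.succ := fun x => by simp [f]
      have hfo : ∀ x k, k ≠ j.succ → f x k = x k := fun x k hk => by simp [f, hk]
      have hsum : ∀ x, ∑ l : Fin n, f x l.succ = -x j.succ := by
        intro x
        rw [← Finset.add_sum_erase _ _ (mem_univ j), hfj,
          ← Finset.add_sum_erase _ (fun l : Fin n => x l.succ) (mem_univ j)]
        have : ∑ l ∈ univ.erase j, f x l.succ = ∑ l ∈ univ.erase j, x l.succ := by
          refine Finset.sum_congr rfl fun l hl => ?_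
          refine hfo x _ ?_
          intro h
          exact (Finset.mem_erase.mp hl).1 (Fin.succ_injective _ h)
        rw [this]
        ring
      have h1 := int_involution f (fun x => by
        ext k
        by_cases hk : k = j.succ
        · rw [hk, hfj, hsum, neg_neg]
        · rw [hfo _ _ hk, hfo _ _ hk]) (polytope (exL n)) (fun x hx => by
          obtain ⟨a, b, c, e⟩ := (mem_ex n x).mp hx
          rw [mem_ex, hsum, hfo x 0 (Fin.succ_ne_zero j).symm]
          refine ⟨a, b, by linarith [e j], fun k => ?_⟩
          by_cases hk : k = j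
          · rw [hk, hfj]; linarith
          · rw [hfo x _ (fun h => hk (Fin.succ_injective _ h))]; exact e k) (fun x => x j.succ)
      rw [← h1]
      simp only [hfj]
      rw [integral_neg]
      congr 1
      exact integral_finset_sum _ (fun k _ => ex_integrable n (Fin.succ k))
    have hS : ∑ k : Fin n, ∫ x in polytope (exL n), x k.succ = 0 := by
      have h2 : ∑ k : Fin n, ∫ x in polytope (exL n), x k.succ =
          ∑ k : Fin n, -∑ k : Fin n, ∫ x in polytope (exL n), x k.succ :=
        Finset.sum_congr rfl fun k _ => key k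
      rw [Finset.sum_const, card_univ, Fintype.card_fin, nsmul_eq_mul] at h2
      have hn' : (0 : ℝ) ≤ n := Nat.cast_nonneg n
      have h3 : ((n : ℝ) + 1) * ∑ k : Fin n, ∫ x in polytope (exL n), x k.succ = 0 := by
        linarith
      rcases mul_eq_zero.mp h3 with h | h
      · linarith
      · exact h
    rw [key j, hS, neg_zero]

end Pool.Agent.L5helper31.TG
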